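import Pool.Agent.Lib.FloodIt.Levels

/-!
# Flood-It on rectangular grids: a lower bound for every `k`, `n` and `c`

`M_c(G_{k,n}) ≥ (n + k - 1) - ⌈(n + k - 1)/c⌉`, by colourings that depend on the diagonal.
-/

namespace Pool.Agent.Results.MP_d0f7e0_co.DiagonalLowerBound

open Pool.Agent.Lib.FloodIt

/-- For all `k, n ≥ 1` and `1 ≤ c ≤ kn` the worst-case number of moves of the free flood-filling
game on the `k × n` grid with exactly `c` colours is at least
`(n + k - 1) - ⌈(n + k - 1)/c⌉`. -/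
theorem result : ∀ k n c : ℕ, 1 ≤ k → 1 ≤ n → 1 ≤ c → c ≤ k * n →
    (n + k - 1) - ⌈((n + k - 1 : ℕ) : ℚ) / c⌉₊ ≤ worstMoves (grid k n) c := by
  intro k n c hk hn hc hcn
  exact le_worstMoves_grid hk hn hc hcn

end Pool.Agent.Results.MP_d0f7e0_co.DiagonalLowerBound
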