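import Pool.Agent.Lib.FloodIt.Magnitude

/-!
# Flood-It on rectangular grids: the order of magnitude for all `k`, `n` and `c`
-/

namespace Pool.Agent.Results.MP_d0f7e0_co.OrderOfMagnitude

open Pool.Agent.Lib.FloodIt

/-- For all `k, n ≥ 1` and `2 ≤ c ≤ kn` the worst-case number of moves of the free flood-filling
game on the `k × n` grid with exactly `c` colours lies between `(n + k + √(ckn))/30` and
`n + k + 2√(ckn)`. -/
theorem result : ∀ k n c : ℕ, 1 ≤ k → 1 ≤ n → 2 ≤ c → c ≤ k * n →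
    ((n : ℝ) + k + √((c : ℝ) * k * n)) / 30 ≤ (worstMoves (grid k n) c : ℝ) ∧
    (worstMoves (grid k n) c : ℝ) ≤ n + k + 2 * √((c : ℝ) * k * n) := by
  intro k n c hk hn hc hcn
  refine ⟨?_, worstMoves_le_sqrt hk hn (by omega)⟩
  have h1 := sqrt_le_worstMoves hk hn hc hcn
  obtain ⟨h2, h3⟩ := add_le_two_mul_worstMoves hk hn hc hcn
  have h2' : (n : ℝ) + k ≤ 2 * (worstMoves (grid k n) c : ℝ) + 2 := by exact_mod_cast h2
  have h3' : (1 : ℝ) ≤ (worstMoves (grid k n) c : ℝ) := by exact_mod_cast h3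
  linarith

end Pool.Agent.Results.MP_d0f7e0_co.OrderOfMagnitude
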