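import Pool.Agent.Lib.Flood.Bridge

/-!
# MP_d0f7e0_co: the free Flood-It game on grids with three rows

`M_c(G_{3,n}) ≥ n - ⌈n/c⌉ + 2` for `3 ≤ c ≤ 3n`, with equality for `c = 3`.
-/

namespace Pool.Agent.Results.MP_d0f7e0_co.ThreeRows

open Pool.Agent.Lib.FloodIt

/-- For all `n ≥ 1` and `3 ≤ c ≤ 3n` some surjective colouring of the `3 × n` grid with `c` colours needs at least
`n - ⌈n/c⌉ + 2` moves, and for `c = 3` this is the exact value of `M_c(G_{3,n})`. -/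
theorem result : ∀ n : ℕ, 1 ≤ n →
    (∀ c : ℕ, 3 ≤ c → c ≤ 3 * n → n - n ⌈/⌉ c + 2 ≤ worstMoves (grid 3 n) c) ∧
      worstMoves (grid 3 n) 3 = n - n ⌈/⌉ 3 + 2 := by
  intro n hn
  exact ⟨fun c h1 h2 => Lib.Flood.rows_lower' (Or.inr rfl) hn h1 h2, Lib.Flood.rows_exact' (Or.inr rfl) hn⟩

end Pool.Agent.Results.MP_d0f7e0_co.ThreeRows
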