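import Pool.Agent.Lib.FloodIt.ManyColours

/-!
# Flood-It on two rows with many colours

The exact value of `M_c(G_{2,n})` for `n ≤ c ≤ 2n`: it is `n - 1 + ⌊c/2⌋`.
-/

namespace Pool.Agent.Results.MP_d0f7e0_co.TwoRowsManyColours

open Pool.Agent.Lib.FloodIt

/-- For `1 ≤ n ≤ c ≤ 2n` the worst-case number of moves of the free flood-filling game on the
`2 × n` grid with exactly `c` colours is `n - 1 + ⌊c/2⌋`. -/
theorem result : ∀ n c : ℕ, 1 ≤ n → n ≤ c → c ≤ 2 * n →
    worstMoves (grid 2 n) c = n - 1 + c / 2 := by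
  intro n c hn h1 h2
  obtain ⟨m, rfl⟩ : ∃ m, n = m + 1 := ⟨n - 1, by omega⟩
  simpa using worstMoves_eq (m := m) (c := c) h1 h2

end Pool.Agent.Results.MP_d0f7e0_co.TwoRowsManyColours
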